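import Pool.Agent.P.MP_6277db_ag.KEW.St.Defs

/-!
Comparison of the definitions of the statement with the definitions used in the proof.
-/

noncomputable section

open CategoryTheory Limits AlgebraicGeometry

namespace Pool.Agent.KEW.St

variable {C : Type 1} [Category.{0} C] {L : Type 1} [CommRing L] {u : C ⥤ Scheme.{0}}

/-- The same spectrum, in the definitions of the proof. -/
def toSpt (E : Spt L u) : KEW.Spt L u := ⟨E.X, E.σ⟩

/-- The same spectrum, in the definitions of the statement. -/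
def ofSpt (E : KEW.Spt L u) : Spt L u := ⟨E.X, E.σ⟩

theorem eqvGen_toSpt {E E' : Spt L u} (h : Relation.EqvGen LevelW E E') :
    Relation.EqvGen KEW.LevelW (toSpt E) (toSpt E') := by
  induction h with
  | rel _ _ h => exact .rel _ _ h
  | refl => exact .refl _
  | symm _ _ _ h => exact .symm _ _ h
  | trans _ _ _ _ _ h h' => exact .trans _ _ _ h h'

theorem eqvGen_ofSpt {E E' : KEW.Spt L u} (h : Relation.EqvGen KEW.LevelW E E') :
    Relation.EqvGen LevelW (ofSpt E) (ofSpt E') := by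
  induction h with
  | rel _ _ h => exact .rel _ _ h
  | refl => exact .refl _
  | symm _ _ _ h => exact .symm _ _ h
  | trans _ _ _ _ _ h h' => exact .trans _ _ _ h h'

theorem toSpt_voev (m : ℕ) : toSpt (voev L u m) = KEW.voev L u m := rfl

theorem ofSpt_voev (m : ℕ) : ofSpt (KEW.voev L u m) = voev L u m := rfl

variable (L u) in
/-- The two definitions of `L[U][-q] ⊗ T^n` agree. -/
def srcIso (q : ℤ) : ∀ n : ℕ, src L u q n ≅ rep C L ⋙ KEW.src L u q n
  | 0 => Iso.refl _
  | n + 1 => Functor.isoWhiskerRight (srcIso q n) (tT L u)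

/-- The terms of the colimit in the definitions of the proof. -/
abbrev Term' (E : Spt L u) (i : ℤ) (j : ℕ) (U : C) : Type 2 :=
  Σ n : ℕ, ((KEW.QA L u).obj ((KEW.src L u (i - 2 * j) n).obj ((rep C L).obj U)) ⟶
    (KEW.QA L u).obj ((toSpt E).X (j + n)))

theorem HomA.pre_pre {K₁ K₀ K K' : Ch C L} (g : K₁ ⟶ K₀) (f : K₀ ⟶ K) (φ : HomA L u K K') :
    (φ.pre f).pre g = φ.pre (g ≫ f) := by
  simp only [HomA.pre, Functor.map_comp, Category.assoc]

theorem HomA.pre_id {K K' : Ch C L} (φ : HomA L u K K') : φ.pre (𝟙 K) = φ := by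
  unfold HomA.pre
  rw [CategoryTheory.Functor.map_id]
  exact Category.id_comp _

/-- The bijection on terms. -/
def termEquiv (E : Spt L u) (i : ℤ) (j : ℕ) (U : C) : Term E i j U ≃ Term' E i j U :=
  Equiv.sigmaCongrRight fun n =>
    { toFun := fun φ => HomA.pre ((srcIso L u _ n).inv.app U) φ
      invFun := fun φ => HomA.pre ((srcIso L u _ n).hom.app U) φ
      left_inv := fun φ => (HomA.pre_pre _ _ φ).trans (by
        rw [Iso.hom_inv_id_app]
        exact HomA.pre_id φ)
      right_inv := fun φ => (HomA.pre_pre _ _ φ).trans (by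
        rw [Iso.inv_hom_id_app]
        exact HomA.pre_id φ) }

theorem step_eq (E : Spt L u) {K : Ch C L} {n : ℕ} (φ : HomA L u K (E.X n)) :
    φ.tw.post (E.σ n) = step (toSpt E) φ := by
  simp only [HomA.post, HomA.tw, Category.assoc]
  rfl

theorem termEquiv_next (E : Spt L u) (i : ℤ) (j : ℕ) (U : C) (x : Term E i j U) :
    termEquiv E i j U x.next =
      ⟨(termEquiv E i j U x).1 + 1, step (toSpt E) (termEquiv E i j U x).2⟩ :=
  congrArg (Sigma.mk (x.1 + 1)) ((HomA.tw_pre _ x.2 _).trans (step_eq E _))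

/-- The bijection on cohomology. -/
def cohEquiv (E : Spt L u) (i : ℤ) (j : ℕ) (U : C) : Coh E i j U ≃ KEW.Coh (toSpt E) i j U :=
  Quot.congr (termEquiv E i j U) fun x y => by
    rw [← termEquiv_next, Equiv.apply_eq_iff_eq]

theorem cohEquiv_map (E : Spt L u) (i : ℤ) (j : ℕ) {U V : C} (f : V ⟶ U) (x : Coh E i j U) :
    cohEquiv E i j V (Coh.map E i j f x) = KEW.Coh.map (toSpt E) i j f (cohEquiv E i j U x) := by
  obtain ⟨x⟩ := x
  refine congrArg (Quot.mk _) (congrArg (Sigma.mk x.1) ?_)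
  refine (HomA.pre_pre _ _ x.2).trans (Eq.trans ?_ (HomA.pre_pre _ _ x.2).symm)
  exact congrArg (HomA.pre · x.2) ((srcIso L u _ x.1).inv.naturality f).symm

theorem bijective_of (E : Spt L u) (i : ℤ) (j : ℕ) {U V : C} (f : V ⟶ U)
    (h : Function.Bijective (KEW.Coh.map (toSpt E) i j f)) :
    Function.Bijective (Coh.map E i j f) := by
  have : Coh.map E i j f =
      (cohEquiv E i j V).symm ∘ KEW.Coh.map (toSpt E) i j f ∘ cohEquiv E i j U := by
    funext x
    simp only [Function.comp_apply, ← cohEquiv_map, Equiv.symm_apply_apply]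
  rw [this]
  exact (cohEquiv E i j V).symm.bijective.comp (h.comp (cohEquiv E i j U).bijective)

variable {A : Type} [CommRing A] [IsLocalRing A] {m : ℕ}

theorem isMotCoh_toSpt {E : Spt (ULift.{1} (ZMod m)) (big A)} (h : IsMotCoh m E) :
    KEW.IsMotCoh A m (toSpt E) :=
  ⟨h.1, eqvGen_toSpt h.2⟩

theorem isMotCoh_ofSpt {E : KEW.Spt (ULift.{1} (ZMod m)) (KEW.big A)} (h : KEW.IsMotCoh A m E) :
    IsMotCoh m (ofSpt E) :=
  ⟨h.1, eqvGen_ofSpt h.2⟩

end Pool.Agent.KEW.St
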