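import Pool.Agent.P.MP_6277db_ag.KEW.DefsD

/-!
Definitions for the statement: the `A^1`-derived category, `T`-spectra and their cohomology,
Voevodsky's motivic cohomology spectrum, the sites over a discrete valuation ring.
-/

noncomputable section

open CategoryTheory Limits AlgebraicGeometry MonoidalCategory TensorProduct

namespace Pool.Agent.KEW.St

section algebra

variable (L : Type 1) [CommRing L] {α β : Type}

/-- The free module `L[α]` modulo the span of the basis elements in `S`. -/
def fq (S : Set α) : ModuleCat.{1} L := ModuleCat.of L ((α →₀ L) ⧸ Finsupp.supported L L S)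

theorem fq_le {S : Set α} {S' : Set β} {f : α → β} (h : Set.MapsTo f S S') :
    Finsupp.supported L L S ≤ (Finsupp.supported L L S').comap (Finsupp.lmapDomain L L f) :=
  (Finsupp.supported_mono h).trans (Finsupp.supported_comap_lmapDomain L L _ _)

/-- The map `[a] ↦ [f a]`. -/
def fqMap {S : Set α} {S' : Set β} (f : α → β) (h : Set.MapsTo f S S') : fq L S ⟶ fq L S' :=
  ModuleCat.ofHom (Submodule.mapQ _ _ (Finsupp.lmapDomain L L f) (fq_le L h))

theorem pair_le {N N' : ModuleCat.{1} L} {S : Set α} {φ : α → (N ⟶ N')} (h : ∀ a ∈ S, φ a = 0) :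
    Finsupp.supported L L S ≤ LinearMap.ker (Finsupp.linearCombination L fun a => (φ a).hom) := by
  rw [Finsupp.supported_eq_span_single, Submodule.span_le]
  rintro _ ⟨a, ha, rfl⟩
  simp [h a ha]

/-- The map `x ⊗ [a] ↦ φ a x`. -/
def pair {N N' : ModuleCat.{1} L} {S : Set α} (φ : α → (N ⟶ N')) (h : ∀ a ∈ S, φ a = 0) :
    N ⊗ fq L S ⟶ N' :=
  ModuleCat.ofHom (X := N ⊗[L] ((α →₀ L) ⧸ Finsupp.supported L L S)) (TensorProduct.lift
    (Submodule.liftQ _ (Finsupp.linearCombination L fun a => (φ a).hom) (pair_le L h)).flip)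

/-- Extension of scalars `M ↦ L ⊗ M` from abelian groups to `L`-modules. -/
def coef : AddCommGrpCat.{0} ⥤ ModuleCat.{1} L where
  obj M := ModuleCat.of L (L ⊗[ℤ] M)
  map f := ModuleCat.ofHom (f.hom.toIntLinearMap.baseChange L)
  map_id _ := ModuleCat.hom_ext LinearMap.baseChange_id
  map_comp f g :=
    ModuleCat.hom_ext (LinearMap.baseChange_comp f.hom.toIntLinearMap g.hom.toIntLinearMap)

variable {G G' : Type} [AddCommGroup G] [AddCommGroup G']

/-- The predicate `P` defines a subgroup. -/
def IsSub (P : G → Prop) : Prop := P 0 ∧ (∀ a b, P a → P b → P (a + b)) ∧ ∀ a, P a → P (-a)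

/-- The subgroup defined by `P`. -/
def subOf (P : G → Prop) (h : IsSub P) : AddSubgroup G where
  carrier := {a | P a}
  zero_mem' := h.1
  add_mem' := h.2.1 _ _
  neg_mem' := h.2.2 _

/-- The subquotient `A / (A ∩ B)`. -/
def subq (A B : AddSubgroup G) : AddCommGrpCat.{0} := AddCommGrpCat.of (A ⧸ B.addSubgroupOf A)

/-- `φ` maps `A` to `A'` and `A ∩ B` to `B'`. -/
def Maps (φ : G →+ G') (A B : AddSubgroup G) (A' B' : AddSubgroup G') : Prop :=
  A ≤ A'.comap φ ∧ A ⊓ B ≤ B'.comap φ

/-- The map induced by `φ` on subquotients. -/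
def subqMap (φ : G →+ G') {A B : AddSubgroup G} {A' B' : AddSubgroup G'}
    (h : Maps φ A B A' B') : subq A B ⟶ subq A' B' :=
  AddCommGrpCat.ofHom (QuotientAddGroup.map (B.addSubgroupOf A) (B'.addSubgroupOf A')
    ((φ.comp A.subtype).codRestrict A' fun c => h.1 c.2) fun c hc => h.2 ⟨c.2, hc⟩)

/-- The closure of the support of `c` misses `T`. -/
def Off [TopologicalSpace α] (T : Set α) (c : α → ℚ) : Prop :=
  Disjoint (closure (Function.support c)) T

theorem isSub_off [TopologicalSpace α] (T : Set α) : IsSub (Off T) := by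
  refine ⟨by simp [Off], fun a b h h' => ?_, fun a h => by simpa [Off] using h⟩
  refine Set.disjoint_of_subset_left (closure_mono (Function.support_add a b)) ?_
  rw [closure_union]
  exact Set.disjoint_union_left.2 ⟨h, h'⟩

end algebra

section schemes

variable (L : Type 1) [CommRing L] {X Y W W' : Scheme.{0}}

/-- The global functions on a scheme. -/
def Fn (X : Scheme.{0}) : CommRingCat.{0} := Γ(X, ⊤)

/-- Pull back of functions. -/
def fnPull (f : X ⟶ Y) : Fn Y → Fn X := f.appTop

/-- The map on points. -/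
def pt (f : X ⟶ Y) : X → Y := f

/-- The family `S` of sets of functions is stable under pull back. -/
def Stable (S : ∀ X : Scheme.{0}, Set (Fn X)) : Prop :=
  ∀ ⦃X Y : Scheme.{0}⦄ (f : X ⟶ Y), Set.MapsTo (fnPull f) (S Y) (S X)

/-- The presheaf `U ↦ L[O(U)] / L[S(U)]` on schemes. -/
def funQuot (S : ∀ X : Scheme.{0}, Set (Fn X)) (hS : Stable S) : PSh Scheme.{0} L where
  obj U := fq L (S U.unop)
  map f := fqMap L (fnPull f.unop) (hS f.unop)
  map_id U := by
    refine ModuleCat.hom_ext (Submodule.linearMap_qext _ ?_)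
    ext x
    change Submodule.Quotient.mk (Finsupp.mapDomain _ (Finsupp.single x 1)) =
      Submodule.Quotient.mk (Finsupp.single x 1)
    simp [fnPull]
  map_comp f g := by
    refine ModuleCat.hom_ext (Submodule.linearMap_qext _ ?_)
    ext x
    change Submodule.Quotient.mk (Finsupp.mapDomain _ (Finsupp.single x 1)) =
      Submodule.Quotient.mk (Finsupp.mapDomain _ (Finsupp.mapDomain _ (Finsupp.single x 1)))
    simp [fnPull]

/-- The zero function. -/
def zeros (X : Scheme.{0}) : Set (Fn X) := {0}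

/-- The invertible functions. -/
def units (X : Scheme.{0}) : Set (Fn X) := {a | IsUnit a}

theorem stable_zeros : Stable zeros := fun _ _ f _ ha => by
  rw [show _ = (0 : Fn _) from ha]
  exact map_zero f.appTop.hom

theorem stable_units : Stable units := fun _ _ f _ ha => IsUnit.map f.appTop.hom ha

/-- The reduced affine line `L[A^1] / L[0]`. -/
def line : PSh Scheme.{0} L := funQuot L zeros stable_zeros

/-- The Tate object `T = L[A^1] / L[A^1 - 0]`. -/
def tate : PSh Scheme.{0} L := funQuot L units stable_units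

/-- `c` is a finite relative cycle on `X` over `W` with coefficients in the rationals with
denominator prime to `m`, recorded by the multiplicities of the geometric points of the fibres. -/
def IsCyc (m : ℕ) (p : X ⟶ W) (c : X → ℚ) : Prop :=
  (∀ x, (c x).den.Coprime m) ∧ Specialises p c ∧ FinOver p (Function.support c)

/-- The projection of affine space. -/
def prj (ι : Type) (W : Scheme.{0}) : 𝔸(ι; W) ⟶ W := 𝔸(ι; W) ↘ W

theorem isSub_cyc (m : ℕ) (ι : Type) (W : Scheme.{0}) : IsSub (IsCyc m (prj ι W)) :=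
  ⟨(Cyc m (𝔸(ι; W) ↘ W)).zero_mem, fun _ _ => (Cyc m (𝔸(ι; W) ↘ W)).add_mem,
    fun _ => (Cyc m (𝔸(ι; W) ↘ W)).neg_mem⟩

/-- The finite relative cycles on `A^ι` over `W`. -/
def cyc (m : ℕ) (ι : Type) (W : Scheme.{0}) : AddSubgroup (𝔸(ι; W) → ℚ) :=
  subOf _ (isSub_cyc m ι W)

/-- The functions on `A^ι` over `W` with support away from the zero section. -/
def off (ι : Type) (W : Scheme.{0}) : AddSubgroup (𝔸(ι; W) → ℚ) :=
  subOf _ (isSub_off (Set.range (pt (AffineSpace.homOfVector (𝟙 W) fun _ : ι => 0))))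

/-- Cycles on `A^ι` over `W` modulo the cycles on `A^ι - 0` over `W`. -/
def cycObj (m : ℕ) (ι : Type) (W : Scheme.{0}) : AddCommGrpCat.{0} := subq (cyc m ι W) (off ι W)

/-- Base change of functions on affine space. -/
def pullFn (ι : Type) (f : W' ⟶ W) : (𝔸(ι; W) → ℚ) →+ (𝔸(ι; W') → ℚ) :=
  (LinearMap.funLeft ℚ ℚ (pt (AffineSpace.map ι f))).toAddMonoidHom

theorem maps_pull (m : ℕ) (ι : Type) (f : W' ⟶ W) :
    Maps (pullFn ι f) (cyc m ι W) (off ι W) (cyc m ι W') (off ι W') :=
  ⟨fun c hc => (Cyc.pull m (AffineSpace.isPullback_map f) ⟨c, hc⟩).2, fun _ hc =>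
    Set.disjoint_left.2 fun _ hx hx' => Set.disjoint_left.1 hc.2
      ((AffineSpace.map ι f).continuous.closure_preimage_subset _ hx) (map_zeroSec ι f hx')⟩

/-- Base change of cycles. -/
def cycPull (m : ℕ) (ι : Type) (f : W' ⟶ W) : cycObj m ι W ⟶ cycObj m ι W' :=
  subqMap _ (maps_pull m ι f)

theorem cycPull_id (m : ℕ) (ι : Type) (W : Scheme.{0}ᵒᵖ) :
    cycPull m ι (𝟙 W : W ⟶ W).unop = 𝟙 (cycObj m ι W.unop) :=
  (KEW.cycA m ι).map_id W

theorem cycPull_comp (m : ℕ) (ι : Type) {W W' W'' : Scheme.{0}ᵒᵖ} (f : W ⟶ W') (g : W' ⟶ W'') :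
    cycPull m ι (f ≫ g).unop = cycPull m ι f.unop ≫ cycPull m ι g.unop :=
  (KEW.cycA m ι).map_comp f g

/-- The presheaf of abelian groups `W ↦ cycObj m ι W`. -/
def cycA (m : ℕ) (ι : Type) : Scheme.{0}ᵒᵖ ⥤ AddCommGrpCat.{0} where
  obj W := cycObj m ι W.unop
  map f := cycPull m ι f.unop
  map_id := cycPull_id m ι
  map_comp := cycPull_comp m ι

/-- The space `L_tr(A^n) / L_tr(A^n - 0)` of the motivic cohomology spectrum. -/
def HH (m n : ℕ) : PSh Scheme.{0} L := cycA m (Fin n) ⋙ coef L

/-- The closed immersion `A^n ⟶ A^(n+1)`, `x ↦ (x, a)`, over `W`, for a function `a` on `W`. -/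
def graph (n : ℕ) (W : Scheme.{0}) (a : Fn W) : 𝔸(Fin n; W) ⟶ 𝔸(Fin (n + 1); W) :=
  AffineSpace.homOfVector (prj _ W)
    (fun i => (finSuccEquivLast i).elim (fnPull (prj _ W) a) (AffineSpace.coord W))

/-- Extension by zero along `graph`. -/
def extFn (n : ℕ) (W : Scheme.{0}) (a : Fn W) :
    (𝔸(Fin n; W) → ℚ) →+ (𝔸(Fin (n + 1); W) → ℚ) :=
  Function.ExtendByZero.hom ℚ (pt (graph n W a))

theorem maps_ext (m n : ℕ) (W : Scheme.{0}) (a : Fn W) :
    Maps (extFn n W a) (cyc m _ W) (off _ W) (cyc m _ W) (off _ W) :=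
  ⟨fun c hc => (Cyc.ext0 m (KEW.graph finSuccEquivLast W a) (graph_over _ W a) ⟨c, hc⟩).2,
    fun _ hc => Set.disjoint_left.2 fun x hx hx' => by
      have := closure_mono (support_extend_subset _ _) hx
      rw [show pt (graph n W a) = KEW.graph finSuccEquivLast W a from rfl,
        (KEW.graph finSuccEquivLast W a).isClosedEmbedding.closure_image_eq] at this
      obtain ⟨y, hy, rfl⟩ := this
      exact Set.disjoint_left.1 hc.2 hy (graph_mem_zeroSec _ W a y hx').1⟩

/-- The map `c ↦ c × a` on cycles with coefficients in `L`. -/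
def cycApp (m n : ℕ) (W : Scheme.{0}) (a : Fn W) :
    (coef L).obj (cycObj m (Fin n) W) ⟶ (coef L).obj (cycObj m (Fin (n + 1)) W) :=
  (coef L).map (subqMap _ (maps_ext m n W a))

theorem cycApp_unit (m n : ℕ) (W : Scheme.{0}) : ∀ a ∈ units W, cycApp L m n W a = 0 := by
  intro a ha
  have : (CycA.app m finSuccEquivLast W a : CycA m (Fin n) W →+ _).toIntLinearMap = 0 := by
    rw [CycA.app_unit m _ W a ha]
    rfl
  refine ModuleCat.hom_ext ?_
  change LinearMap.baseChange L (CycA.app m finSuccEquivLast W a).toIntLinearMap = 0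
  rw [this, LinearMap.baseChange_zero]

/-- The pairing `c ⊗ [a] ↦ c × a` over `W`. -/
def bondApp (m n : ℕ) (W : Scheme.{0}ᵒᵖ) : (HH L m n ⊗ tate L).obj W ⟶ (HH L m (n + 1)).obj W :=
  pair L (cycApp L m n W.unop) (cycApp_unit L m n W.unop)

theorem bondApp_nat (m n : ℕ) ⦃W W' : Scheme.{0}ᵒᵖ⦄ (f : W ⟶ W') :
    (HH L m n ⊗ tate L).map f ≫ bondApp L m n W' = bondApp L m n W ≫ (HH L m (n + 1)).map f :=
  (KEW.bond L m finSuccEquivLast).naturality f

/-- The bonding map `H n ⊗ T ⟶ H (n + 1)`, `c ⊗ [a] ↦ c × a`. -/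
def bond (m n : ℕ) : HH L m n ⊗ tate L ⟶ HH L m (n + 1) where
  app := bondApp L m n
  naturality := bondApp_nat L m n

end schemes

section spectra

variable {C : Type 1} [Category.{0} C] (L : Type 1) [CommRing L] (u : C ⥤ Scheme.{0})

variable {L} in
/-- Generators of the class of `A^1`-Nisnevich acyclic complexes: complexes whose homology is
Nisnevich locally zero and complexes `K ⊗ L[A^1] / L[0]`. -/
def NGen (K : Ch C L) : Prop :=
  (∀ q : ℤ, LocZero u (K.homology q)) ∨ ∃ K' : Ch C L, K = (tens (u.op ⋙ line L)).obj K'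

/-- The `A^1`-Nisnevich local equivalences of complexes of presheaves. -/
def WW : MorphismProperty (Ch C L) :=
  fun _ _ f => Loc (NGen u) (CochainComplex.mappingCone f)

/-- The effective `A^1`-derived category. -/
def DA : Type 2 := (WW L u).Localization

instance catDA : Category.{2} (DA L u) := (inferInstance : Category (WW L u).Localization)

/-- The localisation functor. -/
def QA : Ch C L ⥤ DA L u := (WW L u).Q

instance isLocalization_QA : (QA L u).IsLocalization (WW L u) :=
  (inferInstance : (WW L u).Q.IsLocalization (WW L u))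

/-- Tensoring a complex with the Tate object `T`. -/
def tT : Ch C L ⥤ Ch C L := tens (u.op ⋙ tate L)

theorem tT_inverts : (WW L u).IsInvertedBy (tT L u ⋙ QA L u) := tens_tate_inverts u

/-- The functor `- ⊗ T` on the effective `A^1`-derived category. -/
def susp : DA L u ⥤ DA L u := Localization.lift (tT L u ⋙ QA L u) (tT_inverts L u) (QA L u)

/-- The suspension commutes with the localisation functor. -/
def suspFac : QA L u ⋙ susp L u ≅ tT L u ⋙ QA L u :=
  Localization.fac (tT L u ⋙ QA L u) (tT_inverts L u) (QA L u)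

/-- A `T`-spectrum: complexes `E n` with maps `E n ⊗ T ⟶ E (n + 1)`. -/
structure Spt where
  /-- the levels -/
  X : ℕ → Ch C L
  /-- the bonding maps -/
  σ : ∀ n, (tT L u).obj (X n) ⟶ X (n + 1)

/-- `U ↦ L[U][-q] ⊗ T^n`. -/
def src (q : ℤ) (n : ℕ) : C ⥤ Ch C L := Nat.rec (rep C L ⋙ sgl q) (fun _ F => F ⋙ tT L u) n

/-- Morphisms between two complexes in the effective `A^1`-derived category. -/
def HomA (K K' : Ch C L) : Type 2 := (QA L u).obj K ⟶ (QA L u).obj K'

/-- Voevodsky's motivic cohomology spectrum `n ↦ L_tr(A^n) / L_tr(A^n - 0)`. -/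
def voev (m : ℕ) : Spt L u where
  X n := (sgl 0).obj (u.op ⋙ HH L m n)
  σ n := (HomologicalComplex.singleMapHomologicalComplex (tensorRight (u.op ⋙ tate L)) _ 0).hom.app
      (u.op ⋙ HH L m n) ≫ (sgl 0).map (Functor.whiskerLeft u.op (bond L m n))

variable {L u}

/-- There is a map of spectra `E ⟶ E'` which is levelwise a local equivalence. -/
def LevelW (E E' : Spt L u) : Prop :=
  ∃ f : ∀ n, E.X n ⟶ E'.X n, (∀ n, WW L u (f n)) ∧
    ∀ n, E.σ n ≫ f (n + 1) = (tT L u).map (f n) ≫ E'.σ n

/-- Precomposition with a map of complexes. -/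
def HomA.pre {K₀ K K' : Ch C L} (f : K₀ ⟶ K) (φ : HomA L u K K') : HomA L u K₀ K' :=
  (QA L u).map f ≫ φ

/-- Postcomposition with a map of complexes. -/
def HomA.post {K K' K₁ : Ch C L} (φ : HomA L u K K') (f : K' ⟶ K₁) : HomA L u K K₁ :=
  φ ≫ (QA L u).map f

/-- The map `Hom(K, K') → Hom(K ⊗ T, K' ⊗ T)`. -/
def HomA.tw {K K' : Ch C L} (φ : HomA L u K K') :
    HomA L u ((tT L u).obj K) ((tT L u).obj K') :=
  (suspFac L u).inv.app K ≫ (susp L u).map φ ≫ (suspFac L u).hom.app K'

/-- The terms `Hom(L[U][2j-i] ⊗ T^n, E (j + n))` of the colimit. -/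
def Term (E : Spt L u) (i : ℤ) (j : ℕ) (U : C) : Type 2 :=
  Σ n : ℕ, HomA L u ((src L u (i - 2 * j) n).obj U) (E.X (j + n))

/-- The transition maps of the colimit. -/
def Term.next {E : Spt L u} {i : ℤ} {j : ℕ} {U : C} (x : Term E i j U) : Term E i j U :=
  ⟨x.1 + 1, x.2.tw.post (E.σ (j + x.1))⟩

/-- Pull back on the terms of the colimit. -/
def Term.map {E : Spt L u} {i : ℤ} {j : ℕ} {U V : C} (f : V ⟶ U) (x : Term E i j U) :
    Term E i j V :=
  ⟨x.1, x.2.pre ((src L u (i - 2 * j) x.1).map f)⟩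

/-- The `E`-cohomology `H^{i,j}(U) = colim_n Hom(L[U][2j-i] ⊗ T^n, E (j + n))`. -/
def Coh (E : Spt L u) (i : ℤ) (j : ℕ) (U : C) : Type 2 :=
  Quot fun x y : Term E i j U => y = x.next

theorem HomA.tw_pre {K₀ K K' K₁ : Ch C L} (f : K₀ ⟶ K) (φ : HomA L u K K')
    (g : (tT L u).obj K' ⟶ K₁) : (φ.tw.post g).pre ((tT L u).map f) = (φ.pre f).tw.post g := by
  have := (suspFac L u).inv.naturality f
  simp only [Functor.comp_map] at this
  simp only [HomA.pre, HomA.post, HomA.tw, Functor.map_comp, Category.assoc]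
  rw [← Category.assoc, this, Category.assoc]

theorem Term.map_next {E : Spt L u} {i : ℤ} {j : ℕ} {U V : C} (f : V ⟶ U) :
    ∀ ⦃x y : Term E i j U⦄, y = x.next → y.map f = (x.map f).next := by
  rintro x _ rfl
  exact congrArg (Sigma.mk (x.1 + 1)) (HomA.tw_pre _ x.2 _)

/-- Pull back in `E`-cohomology. -/
def Coh.map (E : Spt L u) (i : ℤ) (j : ℕ) {U V : C} (f : V ⟶ U) : Coh E i j U → Coh E i j V :=
  Quot.map (Term.map f) (Term.map_next f)

/-- Restriction of complexes of presheaves along a functor. -/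
def resCh {C' : Type 1} [Category.{0} C'] (φ : C' ⥤ C) : Ch C L ⥤ Ch C' L :=
  ((Functor.whiskeringLeft _ _ _).obj φ.op).mapHomologicalComplex _

/-- Restriction of a spectrum along a functor of sites. -/
def Spt.res (E : Spt L u) {C' : Type 1} [Category.{0} C'] (φ : C' ⥤ C) : Spt L (φ ⋙ u) where
  X n := (resCh φ).obj (E.X n)
  σ n := (resCh φ).map (E.σ n)

/-- The restriction of `E` along `φ` is connected to Voevodsky's spectrum by a zigzag of maps of
spectra which are levelwise local equivalences. -/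
def IsVoev (m : ℕ) (E : Spt L u) {C' : Type 1} [Category.{0} C'] (φ : C' ⥤ C) : Prop :=
  Relation.EqvGen LevelW (E.res φ) (voev L (φ ⋙ u) m)

variable (u) in
/-- The complex `K` lies in the localising class generated by the acyclic objects and the
representable presheaves of the objects in `P`. -/
def Generated (P : C → Prop) (K : Ch C L) : Prop :=
  Loc (fun K' => NGen u K' ∨ ∃ U : C, P U ∧ K' = (sgl 0).obj ((rep C L).obj U)) K

end spectra

section sites

variable (A : Type) [CommRing A]

/-- Separated schemes of finite type over `A`. -/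
def Big : Type 1 :=
  ObjectProperty.FullSubcategory (fun X : Over (Spec (.of A)) =>
    LocallyOfFiniteType X.hom ∧ QuasiCompact X.hom ∧ IsSeparated X.hom)

instance catBig : Category.{0} (Big A) :=
  ObjectProperty.FullSubcategory.category _

/-- The underlying scheme over `A`. -/
def toOver : Big A ⥤ Over (Spec (.of A)) := ObjectProperty.ι _

/-- The underlying scheme. -/
def big : Big A ⥤ Scheme.{0} := toOver A ⋙ Over.forget _

variable {A}

/-- The structure morphism. -/
def str (X : Big A) : (big A).obj X ⟶ Spec (.of A) := ((toOver A).obj X).hom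

/-- `X` is smooth over `A`. -/
def IsSm (X : Big A) : Prop := Smooth (str X)

/-- `X` is smooth over `A` with empty special fibre, that is a smooth scheme over the fraction
field of the discrete valuation ring `A`. -/
def IsSmGen [IsLocalRing A] : ObjectProperty (Big A) :=
  fun X => Smooth (str X) ∧ IsLocalRing.closedPoint A ∉ Set.range (pt (str X))

attribute [local instance] MvPolynomial.gradedAlgebra in
/-- `X` is projective over `A`: the structure morphism factors through a closed immersion into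
some projective space `Proj A[x_0, ..., x_n]`. -/
def IsProj (X : Big A) : Prop :=
  ∃ (n : ℕ) (j : (big A).obj X ⟶ Proj (MvPolynomial.homogeneousSubmodule (Fin (n + 1)) A)),
    IsClosedImmersion j ∧
      j ≫ Proj.toSpecZero _ ≫ Spec.map (CommRingCat.ofHom
        (algebraMap A (MvPolynomial.homogeneousSubmodule (Fin (n + 1)) A 0))) = str X

/-- `ι : Y ⟶ X` is a closed immersion whose image is the special fibre of `X`. -/
def IsSpecialFibre [IsLocalRing A] {X Y : Big A} (ι : Y ⟶ X) : Prop :=
  IsClosedImmersion ((big A).map ι) ∧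
    Set.range (pt ((big A).map ι)) = pt (str X) ⁻¹' {IsLocalRing.closedPoint A}

/-- `E` is a motivic cohomology spectrum with `ℤ/m`-coefficients over `A`: it is extended from the
smooth site, and over the generic point it is levelwise equivalent to Voevodsky's spectrum. -/
def IsMotCoh [IsLocalRing A] (m : ℕ) (E : Spt (ULift.{1} (ZMod m)) (big A)) : Prop :=
  (∀ n, Generated (big A) IsSm (E.X n)) ∧ IsVoev m E (IsSmGen (A := A)).ι

end sites

end Pool.Agent.KEW.St
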