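import Pool.Agent.P.MP_6277db_ag.KEW.St.Bridge
import Pool.Agent.P.MP_6277db_ag.KEW.Main

noncomputable section

open CategoryTheory AlgebraicGeometry

namespace Pool.Agent.KEW.St

theorem final (A : Type) [CommRing A] [IsDomain A] [IsDiscreteValuationRing A]
    [HenselianLocalRing A] [PerfectField (IsLocalRing.ResidueField A)]
    (m : ℕ) (hm : (m : IsLocalRing.ResidueField A) ≠ 0)
    (E : Spt (ULift.{1} (ZMod m)) (big A)) (hE : IsMotCoh m E)
    (X Y : Big A) (ι : Y ⟶ X) (hX : IsProj X) (hY : IsSpecialFibre ι)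
    (i : ℤ) (j : ℕ) (hj : topologicalKrullDim ((big A).obj Y) ≤ j) :
    Function.Bijective (Coh.map E i j ι) :=
  bijective_of E i j ι (@KEW.main A _ _ _ _ _ m hm (toSpt E) (isMotCoh_toSpt hE) X Y ι hX hY.1 hY.2
    i j hj)

end Pool.Agent.KEW.St
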