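import Pool.Agent.P.MP_6277db_ag.KEW.St.Bridge
import Pool.Agent.P.MP_6277db_ag.KEW.NV.Exists

noncomputable section

open CategoryTheory AlgebraicGeometry

namespace Pool.Agent.KEW.St

/-- There is a motivic cohomology spectrum which is Voevodsky's spectrum on all smooth schemes. -/
theorem exists_isMotCoh (A : Type) [CommRing A] [IsNoetherianRing A] [IsLocalRing A] (m : ℕ) :
    ∃ E : Spt (ULift.{1} (ZMod m)) (big A),
      IsMotCoh m E ∧ IsVoev m E (ObjectProperty.ι (IsSm (A := A))) := by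
  obtain ⟨E, -, h, h'⟩ := KEW.exists_motCoh A m
  exact ⟨ofSpt E, isMotCoh_ofSpt h', eqvGen_ofSpt (.rel _ _ h)⟩

end Pool.Agent.KEW.St
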